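import Pool.Agent.H27.Mag1

set_option autoImplicit false

namespace Pool.Agent.Results.MP_3489b6_co.Pos

open Pool.Agent.H27.Mag

theorem result :
    (∃ c : ℝ, 0 < c ∧ ∀ (V : Type) [Fintype V] [DecidableEq V] (G : SimpleGraph V)
      [DecidableRel G.Adj], 3 ≤ G.minDegree → c ≤ nu G) ∧
    ∀ d : ℕ, 3 ≤ d → ∀ (V : Type) [Fintype V] [DecidableEq V] (G : SimpleGraph V)
      [DecidableRel G.Adj], d ≤ G.minDegree → d - 2 * √(d - 1) ≤ nu G := by
  refine ⟨⟨(3 : ℕ) - 2 * √((3 : ℕ) - 1), ?_, fun V _ _ G _ h => ramanujan G le_rfl h⟩,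
    fun d hd V _ _ G _ h => ramanujan G hd h⟩
  have : √(((3 : ℕ) : ℝ) - 1) < 3 / 2 := by
    rw [Real.sqrt_lt' (by norm_num)]; norm_num
  generalize √(((3 : ℕ) : ℝ) - 1) = t at this ⊢
  push_cast
  linarith

end Pool.Agent.Results.MP_3489b6_co.Pos
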